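import Mathlib

/-!
MP_9a3597_al, project SG, part ALG: three dimensional simple quotients.
-/

namespace Pool.Agent.W708.SG

open Submodule

variable {F : Type} [Field F] [CharZero F] {V : Type} [AddCommGroup V] [Module F V]

/-- `I` is an ideal -/
def Idl (B : V →ₗ[F] V →ₗ[F] V) (I : Submodule F V) : Prop := ∀ x ∈ I, ∀ y, B x y ∈ I

/-- the quotient `V / I` is a copy of `sl_2` (up to `β`) -/
structure Good (B : V →ₗ[F] V →ₗ[F] V) (I : Submodule F V) (u e₁ e₂ : V) (β : F) : Prop where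
  idl : Idl B I
  sp : ∀ x, ∃ a b c : F, x - a • u - b • e₁ - c • e₂ ∈ I
  li : ∀ a b c : F, a • u + b • e₁ + c • e₂ ∈ I → a = 0 ∧ b = 0 ∧ c = 0
  h1 : B u e₁ - u - β • e₂ ∈ I
  h2 : B u e₂ - (2 : F) • e₁ ∈ I
  h3 : B e₁ e₂ - e₂ ∈ I

/-- there is such a presentation -/
def IsGood (B : V →ₗ[F] V →ₗ[F] V) (I : Submodule F V) : Prop :=
  ∃ (u e₁ e₂ : V) (β : F), Good B I u e₁ e₂ β

section
variable {B : V →ₗ[F] V →ₗ[F] V} (hB : ∀ x y, B x y = - B y x)

include hB

omit [CharZero F] in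
theorem idl_right {I : Submodule F V} (h : Idl B I) {x : V} (hx : x ∈ I) (y : V) :
    B y x ∈ I := by
  rw [hB]; exact I.neg_mem (h x hx y)

theorem self_zero (x : V) : B x x = 0 := by
  have h := hB x x
  have h2 : (2 : F) • B x x = 0 := by
    rw [two_smul]; nth_rewrite 2 [h]; simp
  exact (smul_eq_zero.mp h2).resolve_left two_ne_zero

omit [CharZero F] hB in
theorem idl_inf {I J : Submodule F V} (h : Idl B I) (h' : Idl B J) : Idl B (I ⊓ J) := by
  intro x hx y
  exact ⟨h x hx.1 y, h' x hx.2 y⟩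

omit [CharZero F] hB in
theorem idl_sup {I J : Submodule F V} (h : Idl B I) (h' : Idl B J) : Idl B (I ⊔ J) := by
  intro x hx y
  obtain ⟨a, ha, b, hb, rfl⟩ := Submodule.mem_sup.mp hx
  rw [map_add, LinearMap.add_apply]
  exact Submodule.add_mem_sup (h a ha y) (h' b hb y)

omit hB in
/-- every element is a sum of brackets modulo `I` -/
theorem perfect {I : Submodule F V} {u e₁ e₂ : V} {β : F} (g : Good B I u e₁ e₂ β)
    {M : Submodule F V} (hIM : I ≤ M) (hM : ∀ a b, B a b ∈ M) : M = ⊤ := by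
  have m2 : e₂ ∈ M := by
    have := M.sub_mem (hM e₁ e₂) (hIM g.h3)
    simpa using this
  have m1 : e₁ ∈ M := by
    have := M.smul_mem (2 : F)⁻¹ (M.sub_mem (hM u e₂) (hIM g.h2))
    rw [sub_sub_cancel, smul_smul, inv_mul_cancel₀ two_ne_zero, one_smul] at this
    exact this
  have m0 : u ∈ M := by
    have := M.sub_mem (M.sub_mem (hM u e₁) (hIM g.h1)) (M.smul_mem β m2)
    have e : B u e₁ - (B u e₁ - u - β • e₂) - β • e₂ = u := by abel
    rwa [e] at this
  rw [eq_top_iff]
  intro x _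
  obtain ⟨a, b, c, h⟩ := g.sp x
  have := M.add_mem (hIM h) (M.add_mem (M.add_mem (M.smul_mem a m0) (M.smul_mem b m1))
    (M.smul_mem c m2))
  have e : x - a • u - b • e₁ - c • e₂ + (a • u + b • e₁ + c • e₂) = x := by abel
  rwa [e] at this

/-- the quotient is simple -/
theorem simple {I : Submodule F V} {u e₁ e₂ : V} {β : F} (g : Good B I u e₁ e₂ β)
    {J : Submodule F V} (hJ : Idl B J) (hIJ : I ≤ J) (hne : J ≠ I) : J = ⊤ := by
  obtain ⟨f, hfJ, hfI⟩ : ∃ f ∈ J, f ∉ I := by
    by_contra hc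
    push Not at hc
    exact hne (le_antisymm hc hIJ)
  -- `e₂ ∈ J` suffices
  have key : e₂ ∈ J → J = ⊤ := by
    intro m2
    have m1 : e₁ ∈ J := by
      have := J.smul_mem (2 : F)⁻¹ (J.sub_mem (idl_right hB hJ m2 u) (hIJ g.h2))
      rw [sub_sub_cancel, smul_smul, inv_mul_cancel₀ two_ne_zero, one_smul] at this
      exact this
    have m0 : u ∈ J := by
      have := J.sub_mem (J.sub_mem (idl_right hB hJ m1 u) (hIJ g.h1)) (J.smul_mem β m2)
      have e : B u e₁ - (B u e₁ - u - β • e₂) - β • e₂ = u := by abel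
      rwa [e] at this
    rw [eq_top_iff]
    intro x _
    obtain ⟨a, b, c, h⟩ := g.sp x
    have := J.add_mem (hIJ h) (J.add_mem (J.add_mem (J.smul_mem a m0) (J.smul_mem b m1))
      (J.smul_mem c m2))
    have e : x - a • u - b • e₁ - c • e₂ + (a • u + b • e₁ + c • e₂) = x := by abel
    rwa [e] at this
  obtain ⟨a, b, c, hf⟩ := g.sp f
  -- replace `f` by its normal form
  have hf' : a • u + b • e₁ + c • e₂ ∈ J := by
    have := J.sub_mem hfJ (hIJ hf)
    have e : f - (f - a • u - b • e₁ - c • e₂) = a • u + b • e₁ + c • e₂ := by abel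
    rwa [e] at this
  -- bracket with `e₂`
  have hk1 : (2 * a) • e₁ + b • e₂ ∈ J := by
    have h1 := hJ _ hf' e₂
    simp only [map_add, map_smul, LinearMap.add_apply, LinearMap.smul_apply,
      self_zero hB e₂, smul_zero, add_zero] at h1
    have h2 := J.sub_mem h1 (hIJ (I.add_mem (I.smul_mem a g.h2) (I.smul_mem b g.h3)))
    have e : a • B u e₂ + b • B e₁ e₂ - (a • (B u e₂ - (2 : F) • e₁) + b • (B e₁ e₂ - e₂))
        = (2 * a) • e₁ + b • e₂ := by
      module
    rwa [e] at h2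
  have hk2 : (2 * a) • e₂ ∈ J := by
    have h1 := hJ _ hk1 e₂
    simp only [map_add, map_smul, LinearMap.add_apply, LinearMap.smul_apply,
      self_zero hB e₂, smul_zero, add_zero] at h1
    have h2 := J.sub_mem h1 (hIJ (I.smul_mem (2 * a) g.h3))
    have e : (2 * a) • B e₁ e₂ - (2 * a) • (B e₁ e₂ - e₂) = (2 * a) • e₂ := by
      module
    rwa [e] at h2
  apply key
  by_cases ha : a = 0
  · subst ha
    simp only [mul_zero, zero_smul, zero_add] at hk1 hf'
    by_cases hb : b = 0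
    · subst hb
      simp only [zero_smul, zero_add] at hf'
      by_cases hc : c = 0
      · subst hc
        exact absurd (by simpa using hf) hfI
      · have := J.smul_mem c⁻¹ hf'
        rwa [smul_smul, inv_mul_cancel₀ hc, one_smul] at this
    · have := J.smul_mem b⁻¹ hk1
      rwa [smul_smul, inv_mul_cancel₀ hb, one_smul] at this
  · have h2a : (2 * a) ≠ 0 := mul_ne_zero two_ne_zero ha
    have := J.smul_mem (2 * a)⁻¹ hk2
    rwa [smul_smul, inv_mul_cancel₀ h2a, one_smul] at this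

omit [CharZero F] hB in
/-- the coordinate functionals modulo `I` -/
theorem coords {I : Submodule F V} {u e₁ e₂ : V} {β : F} (g : Good B I u e₁ e₂ β) :
    (∃ φ₀ φ₁ φ₂ : V →ₗ[F] F, ∀ x, x - φ₀ x • u - φ₁ x • e₁ - φ₂ x • e₂ ∈ I) ∧
    Module.finrank F (V ⧸ I) = 3 := by
  classical
  let v : Fin 3 → V ⧸ I := ![I.mkQ u, I.mkQ e₁, I.mkQ e₂]
  have hli : LinearIndependent F v := by
    rw [Fintype.linearIndependent_iff]
    intro c hc
    rw [Fin.sum_univ_three] at hc
    simp only [v, Matrix.cons_val_zero, Matrix.cons_val_one, Matrix.cons_val] at hc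
    have h1 : I.mkQ (c 0 • u + c 1 • e₁ + c 2 • e₂) = 0 := by
      rw [map_add, map_add, map_smul, map_smul, map_smul]; exact hc
    rw [Submodule.mkQ_apply, Submodule.Quotient.mk_eq_zero] at h1
    obtain ⟨h0, h1, h2⟩ := g.li _ _ _ h1
    intro i
    fin_cases i
    · exact h0
    · exact h1
    · exact h2
  have hsp : ⊤ ≤ span F (Set.range v) := by
    intro y _
    obtain ⟨x, rfl⟩ := I.mkQ_surjective y
    obtain ⟨a, b, c, h⟩ := g.sp x
    have h0 : I.mkQ x = a • v 0 + b • v 1 + c • v 2 := by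
      have : I.mkQ (x - a • u - b • e₁ - c • e₂) = 0 := by
        rw [Submodule.mkQ_apply, Submodule.Quotient.mk_eq_zero]; exact h
      rw [map_sub, map_sub, map_sub, map_smul, map_smul, map_smul] at this
      simp only [v, Matrix.cons_val_zero, Matrix.cons_val_one, Matrix.cons_val]
      rw [sub_sub, sub_sub, sub_eq_zero] at this
      rw [this]; abel
    rw [h0]
    exact add_mem (add_mem (smul_mem _ _ (subset_span ⟨0, rfl⟩))
      (smul_mem _ _ (subset_span ⟨1, rfl⟩))) (smul_mem _ _ (subset_span ⟨2, rfl⟩))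
  let bs := Module.Basis.mk hli hsp
  refine ⟨⟨(bs.coord 0) ∘ₗ I.mkQ, (bs.coord 1) ∘ₗ I.mkQ, (bs.coord 2) ∘ₗ I.mkQ, ?_⟩, ?_⟩
  · intro x
    have h := bs.sum_repr (I.mkQ x)
    rw [Fin.sum_univ_three] at h
    have e0 : bs 0 = I.mkQ u := by simp [bs, v]
    have e1 : bs 1 = I.mkQ e₁ := by simp [bs, v]
    have e2 : bs 2 = I.mkQ e₂ := by simp [bs, v]
    rw [e0, e1, e2] at h
    rw [← Submodule.Quotient.mk_eq_zero, ← Submodule.mkQ_apply]
    simp only [LinearMap.comp_apply, Module.Basis.coord_apply, map_sub, map_smul]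
    nth_rewrite 1 [← h]
    abel
  · rw [Module.finrank_eq_card_basis bs]; rfl

/-- the induction step -/
theorem sup_inf_top {I I' K : Submodule F V} {u e₁ e₂ : V} {β : F} (g : Good B I u e₁ e₂ β)
    (hK : Idl B K) (hI' : Idl B I') (h1 : I ⊔ K = ⊤) (h2 : I ⊔ I' = ⊤) : I ⊔ (K ⊓ I') = ⊤ := by
  apply perfect g le_sup_left
  intro a b
  obtain ⟨a', ha', a'', ha'', rfl⟩ := Submodule.mem_sup.mp (h1.symm ▸ mem_top : a ∈ I ⊔ K)
  obtain ⟨b', hb', b'', hb'', rfl⟩ := Submodule.mem_sup.mp (h2.symm ▸ mem_top : b ∈ I ⊔ I')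
  have e : B (a' + a'') (b' + b'') = (B a' (b' + b'') + B a'' b') + B a'' b'' := by
    simp only [map_add, LinearMap.add_apply]; abel
  rw [e]
  exact Submodule.add_mem_sup (I.add_mem (g.idl _ ha' _) (idl_right hB g.idl hb' _))
    ⟨hK _ ha'' _, idl_right hB hI' hb'' _⟩

omit [CharZero F] hB in
theorem finrank_good [FiniteDimensional F V] {I : Submodule F V} (g : IsGood B I) :
    Module.finrank F V = Module.finrank F I + 3 := by
  obtain ⟨u, e₁, e₂, β, g⟩ := g
  have := (coords g).2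
  have h := I.finrank_quotient_add_finrank
  omega

theorem sup_top [FiniteDimensional F V] {I I' : Submodule F V} (g : IsGood B I)
    (g' : IsGood B I') (hne : I ≠ I') : I ⊔ I' = ⊤ := by
  have h1 := finrank_good g
  have h2 := finrank_good g'
  obtain ⟨u, e₁, e₂, β, gg⟩ := g
  obtain ⟨u', e₁', e₂', β', gg'⟩ := g'
  apply simple hB gg (idl_sup gg.idl gg'.idl) le_sup_left
  intro h
  have hle : I' ≤ I := by rw [← h]; exact le_sup_right
  exact hne (Submodule.eq_of_le_of_finrank_eq hle (by omega)).symm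

omit [CharZero F] hB in
theorem inf_idl {S : Finset (Submodule F V)} (hS : ∀ I ∈ S, IsGood B I) :
    Idl B (S.inf id) := by
  classical
  induction S using Finset.induction_on with
  | empty => intro x _ y; simp
  | insert I S hI ih =>
    rw [Finset.inf_insert]
    obtain ⟨u, e₁, e₂, β, g⟩ := hS I (Finset.mem_insert_self _ _)
    exact idl_inf g.idl (ih (fun J hJ => hS J (Finset.mem_insert_of_mem hJ)))

theorem sup_inf_finset [FiniteDimensional F V] {S : Finset (Submodule F V)}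
    (hS : ∀ I ∈ S, IsGood B I) {I : Submodule F V} (g : IsGood B I) (hI : I ∉ S) :
    I ⊔ S.inf id = ⊤ := by
  classical
  induction S using Finset.induction_on with
  | empty => simp
  | insert J S hJ ih =>
    have hS' : ∀ I ∈ S, IsGood B I := fun J hJ => hS J (Finset.mem_insert_of_mem hJ)
    have gJ := hS J (Finset.mem_insert_self _ _)
    have h1 := ih hS' (fun h => hI (Finset.mem_insert_of_mem h))
    have h2 := sup_top hB g gJ (fun h => hI (h ▸ Finset.mem_insert_self _ _))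
    rw [Finset.inf_insert, inf_comm]
    obtain ⟨u, e₁, e₂, β, gg⟩ := g
    obtain ⟨u', e₁', e₂', β', gg'⟩ := gJ
    exact sup_inf_top hB gg (inf_idl hS') gg'.idl h1 h2

theorem finrank_inf [FiniteDimensional F V] {S : Finset (Submodule F V)}
    (hS : ∀ I ∈ S, IsGood B I) :
    Module.finrank F (S.inf id : Submodule F V) + 3 * S.card = Module.finrank F V := by
  classical
  induction S using Finset.induction_on with
  | empty => rw [Finset.inf_empty, finrank_top, Finset.card_empty, mul_zero, add_zero]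
  | insert J S hJ ih =>
    have hS' : ∀ I ∈ S, IsGood B I := fun J hJ => hS J (Finset.mem_insert_of_mem hJ)
    have gJ := hS J (Finset.mem_insert_self _ _)
    have h1 := ih hS'
    have h2 := sup_inf_finset hB hS' gJ hJ
    have h3 := Submodule.finrank_sup_add_finrank_inf_eq J (S.inf id)
    rw [h2, finrank_top] at h3
    have h4 := finrank_good gJ
    rw [Finset.inf_insert, Finset.card_insert_of_notMem hJ]
    simp only [id] at *
    omega

/-- the trace form does not vanish -/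
theorem trace_two [FiniteDimensional F V] {I C : Submodule F V} {u e₁ e₂ : V} {β : F}
    (g : Good B I u e₁ e₂ β) (hC : Idl B C) (h1 : I ⊔ C = ⊤) (h2 : I ⊓ C = ⊥) :
    ∃ x, LinearMap.trace F V (B x ∘ₗ B x) = 2 := by
  obtain ⟨y, hy, x, hx, hyx⟩ := Submodule.mem_sup.mp (h1.symm ▸ mem_top : e₁ ∈ I ⊔ C)
  refine ⟨x, ?_⟩
  obtain ⟨⟨φ₀, φ₁, φ₂, hφ⟩, -⟩ := coords g
  have kill : ∀ v ∈ I, B x v = 0 := by
    intro v hv
    have : B x v ∈ I ⊓ C := ⟨idl_right hB g.idl hv _, hC x hx v⟩
    rwa [h2, Submodule.mem_bot] at this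
  have congr : ∀ v, B x v - B e₁ v ∈ I := by
    intro v
    have : B x v - B e₁ v = - B y v := by rw [← hyx]; simp only [map_add, LinearMap.add_apply]; abel
    rw [this]; exact I.neg_mem (g.idl y hy v)
  set T : V →ₗ[F] V := B x ∘ₗ B x with hT
  have hTk : ∀ v ∈ I, T v = 0 := by
    intro v hv; rw [hT, LinearMap.comp_apply, kill v hv, map_zero]
  have hTe : T = φ₀.smulRight (T u) + φ₁.smulRight (T e₁) + φ₂.smulRight (T e₂) := by
    ext v
    have h := hTk _ (hφ v)
    rw [map_sub, map_sub, map_sub, map_smul, map_smul, map_smul, sub_sub, sub_sub,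
      sub_eq_zero] at h
    simp only [LinearMap.add_apply, LinearMap.smulRight_apply]
    rw [h]; abel
  have uniq : ∀ v a b c, v - a • u - b • e₁ - c • e₂ ∈ I → φ₀ v = a ∧ φ₁ v = b ∧ φ₂ v = c := by
    intro v a b c h
    have h' := I.sub_mem h (hφ v)
    have e : v - a • u - b • e₁ - c • e₂ - (v - φ₀ v • u - φ₁ v • e₁ - φ₂ v • e₂)
        = (φ₀ v - a) • u + (φ₁ v - b) • e₁ + (φ₂ v - c) • e₂ := by module
    rw [e] at h'
    obtain ⟨h0, h1, h2⟩ := g.li _ _ _ h'
    exact ⟨sub_eq_zero.mp h0, sub_eq_zero.mp h1, sub_eq_zero.mp h2⟩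
  have e1u : B e₁ u + u + β • e₂ ∈ I := by
    have := I.neg_mem g.h1
    rw [hB u e₁] at this
    have e : -(- B e₁ u - u - β • e₂) = B e₁ u + u + β • e₂ := by abel
    rwa [e] at this
  -- `T v ≡ B e₁ (B e₁ v)`
  have hT2 : ∀ v w, B e₁ v - w ∈ I → T v - B e₁ w ∈ I := by
    intro v w h
    have e : T v - B e₁ w = (B x (B x v - w)) + (B x w - B e₁ w) := by
      rw [hT, LinearMap.comp_apply, map_sub]; abel
    rw [e]
    refine I.add_mem ?_ (congr w)
    have h' : B x v - w ∈ I := by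
      have := I.add_mem (congr v) h
      have e : B x v - B e₁ v + (B e₁ v - w) = B x v - w := by abel
      rwa [e] at this
    exact idl_right hB g.idl h' _
  have t0 : T u - (1 : F) • u - (0 : F) • e₁ - (0 : F) • e₂ ∈ I := by
    have h := hT2 u (-u - β • e₂) (by
      have e : B e₁ u - (-u - β • e₂) = B e₁ u + u + β • e₂ := by abel
      rwa [e])
    have h' := I.add_mem (I.sub_mem h e1u) (I.neg_mem (I.smul_mem β g.h3))
    have e : T u - B e₁ (-u - β • e₂) - (B e₁ u + u + β • e₂) + -(β • (B e₁ e₂ - e₂))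
        = T u - (1 : F) • u - (0 : F) • e₁ - (0 : F) • e₂ := by
      rw [map_sub, map_neg, map_smul]; module
    rwa [e] at h'
  have t1 : T e₁ - (0 : F) • u - (0 : F) • e₁ - (0 : F) • e₂ ∈ I := by
    have h := hT2 e₁ 0 (by rw [self_zero hB e₁]; simp)
    have e : T e₁ - B e₁ 0 = T e₁ - (0 : F) • u - (0 : F) • e₁ - (0 : F) • e₂ := by
      rw [map_zero]; module
    rwa [e] at h
  have t2 : T e₂ - (0 : F) • u - (0 : F) • e₁ - (1 : F) • e₂ ∈ I := by
    have h := hT2 e₂ e₂ g.h3
    have h' := I.add_mem h g.h3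
    have e : T e₂ - B e₁ e₂ + (B e₁ e₂ - e₂)
        = T e₂ - (0 : F) • u - (0 : F) • e₁ - (1 : F) • e₂ := by module
    rwa [e] at h'
  rw [hTe, map_add, map_add, LinearMap.trace_smulRight, LinearMap.trace_smulRight,
    LinearMap.trace_smulRight, (uniq _ _ _ _ t0).1, (uniq _ _ _ _ t1).2.1, (uniq _ _ _ _ t2).2.2]
  norm_num

end

/-- the theorem -/
theorem final (F : Type) [Field F] [CharZero F] (V : Type) [AddCommGroup V]
    [Module F V] [FiniteDimensional F V] (B : V →ₗ[F] V →ₗ[F] V) (hB : ∀ x y, B x y = - B y x)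
    (𝓘 : Set (Submodule F V)) (hne : 𝓘.Nonempty) (hinf : ∀ x, (∀ I ∈ 𝓘, x ∈ I) → x = 0)
    (hg : ∀ I ∈ 𝓘, IsGood B I) :
    𝓘.Finite ∧ Module.finrank F V = 3 * 𝓘.ncard ∧
      ∃ x y, LinearMap.trace F V (B x ∘ₗ B y) ≠ 0 := by
  classical
  have hfin : 𝓘.Finite := by
    by_contra hinf
    obtain ⟨S, hS, hcard⟩ := Set.Infinite.exists_subset_card_eq hinf (Module.finrank F V + 1)
    have := finrank_inf hB (S := S) (fun I hI => hg I (hS hI))
    omega
  have hS : ∀ I ∈ hfin.toFinset, IsGood B I := fun I hI => hg I (hfin.mem_toFinset.mp hI)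
  have hbot : hfin.toFinset.inf id = (⊥ : Submodule F V) := by
    rw [eq_bot_iff]
    intro x hx
    rw [Submodule.mem_finsetInf] at hx
    rw [Submodule.mem_bot]
    exact hinf x (fun I hI => hx I (hfin.mem_toFinset.mpr hI))
  refine ⟨hfin, ?_, ?_⟩
  · have h := finrank_inf hB hS
    rw [hbot, finrank_bot, zero_add] at h
    rw [Set.ncard_eq_toFinset_card 𝓘 hfin]
    exact h.symm
  · obtain ⟨I, hI⟩ := hne
    have hIf : I ∈ hfin.toFinset := hfin.mem_toFinset.mpr hI
    have hS' : ∀ J ∈ hfin.toFinset.erase I, IsGood B J :=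
      fun J hJ => hS J (Finset.mem_of_mem_erase hJ)
    have h1 := sup_inf_finset hB hS' (hg I hI) (Finset.notMem_erase _ _)
    have h2 : I ⊓ (hfin.toFinset.erase I).inf id = ⊥ := by
      have : (insert I (hfin.toFinset.erase I)).inf id = (⊥ : Submodule F V) := by
        rw [Finset.insert_erase hIf, hbot]
      rwa [Finset.inf_insert] at this
    obtain ⟨u, e₁, e₂, β, g⟩ := hg I hI
    obtain ⟨x, hx⟩ := trace_two hB g (inf_idl hS') h1 h2
    exact ⟨x, x, by rw [hx]; exact two_ne_zero⟩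

end Pool.Agent.W708.SG
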