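import Pool.Agent.W37.SG.Stm2
import Pool.Agent.W708.SG.Alg0

/-!
MP_9a3597_al, project SG, part ALG.
-/

namespace Pool.Agent.W708.SG.Alg

theorem main : Pool.Agent.W37.SG.S_ALG := by
  intro F _ _ V _ _ _ B hB 𝓘 hne hinf h
  apply Pool.Agent.W708.SG.final F V B hB 𝓘 hne hinf
  intro I hI
  obtain ⟨h0, u, e₁, e₂, β, h1, h2, h3, h4, h5⟩ := h I hI
  exact ⟨u, e₁, e₂, β, h0, h1, h2, h3, h4, h5⟩

end Pool.Agent.W708.SG.Alg
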